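import Pool.Agent.Lib.MP_177a0e_gt.Des.Thm
import Pool.Agent.Lib.MP_177a0e_gt.Des.Twb
import Pool.Agent.Lib.MP_177a0e_gt.OneMin

/-!
# Ribbon genus and slice genus of the knots which descend to ribbon knots

`Desc g K L` (the knot `K` descends to the knot `L` with loss of genus `g`) is the relation generated by

* ribbon concordances from `K` to `L`, for instance isotopies (`g = 0`);
* alternating pairs: `K` and `L` are obtained from one alternating diagram (of a link) by smoothing `p`
  negative, respectively `q` positive crossings, and `p + q = 2 g`;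
* composition (the losses are added) and connected sum with an arbitrary knot.

In every step the signature drops by `2 g`, and there is a movie from `K` to `L` without births and of
genus `g`.
-/

namespace Pool.Agent.Lib.MP_177a0e_gt.Weaker.AlternatingDescent

open Pool.Agent.Lib.MP_177a0e_gt.Tangle Pool.Agent.Lib.MP_177a0e_gt.Sig Pool.Agent.Lib.MP_177a0e_gt.Des

/-- Let the knot `K` descend to the knot `L` with loss of genus `g`. Then

* the ribbon genus and the slice genus of `K # -L` are `g`;
* the ribbon genus and the slice genus of `K` are `g` if `L` is a ribbon knot;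
* the slice genus of `K` is `g` if `L` is a slice knot.

The ribbon genus and the slice genus are additive on the knots which descend to ribbon knots. If `A` is a
connected sum of positive two-bridge knots of total genus `g` then every knot `K` descends to `K # -A`
with loss `g`. -/
theorem result :
    (∀ (g : ℕ) (K L : Knot), Desc g K L →
      (ribbonGenus (csum K.1 (adj L.1)) = g ∧ sliceGenus (csum K.1 (adj L.1)) = g) ∧
      (ribbonGenus L.1 = 0 → ribbonGenus K.1 = g ∧ sliceGenus K.1 = g) ∧
      (sliceGenus L.1 = 0 → sliceGenus K.1 = g)) ∧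
    (∀ (g g' : ℕ) (K K' L L' : Knot), Desc g K L → Desc g' K' L' →
      ribbonGenus L.1 = 0 → ribbonGenus L'.1 = 0 →
      ribbonGenus (csum K.1 K'.1) = g + g' ∧ sliceGenus (csum K.1 K'.1) = g + g') ∧
    ∀ (m : List (List Bool)) (K A : Knot), TbOdd m → A.1 = tbSum m →
      Desc (tbGenus m) K (K.csum A.mirror) := by
  refine ⟨fun g K L h => ⟨desc_diff h, desc_ribbon h, desc_slice h⟩, fun g g' K K' L L' h h' hL hL' => ?_,
    fun m K A hm hA => ?_⟩
  · have h1 : Desc (g + g') (K.csum K') (L.csum L') := (h.right K').trans (h'.left L)
    have h2 : BoundsRibbon (L.csum L').1 0 := by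
      obtain ⟨d, e⟩ := boundsRibbon_ribbonGenus L
      obtain ⟨d', e'⟩ := boundsRibbon_ribbonGenus L'
      rw [hL] at e
      rw [hL'] at e'
      exact ⟨d + d', ((e.ctx (u := []) valid_nil L'.2.valid).trans e').cast rfl (by ring) rfl⟩
    exact desc_ribbon h1 (Nat.le_zero.1 (Nat.sInf_le h2))
  · have h1 := tbs_desc m hm K
    have h2 : (⟨K.1 ++ adj (tbSum m), K.2.append (tbs_knot m hm).adj⟩ : Knot) = K.csum A.mirror := by
      apply Subtype.ext
      show K.1 ++ adj (tbSum m) = K.1 ++ adj A.1
      rw [hA]
    rw [h2] at h1
    exact h1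

end Pool.Agent.Lib.MP_177a0e_gt.Weaker.AlternatingDescent
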