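import Pool.Agent.Lib.MP_177a0e_gt.TangleRev

namespace Pool.Agent.Lib.MP_177a0e_gt.Weaker.GenusPlusExtrema

open Pool.Agent.Lib.MP_177a0e_gt.Tangle

/-- The ribbon genus of a knot is the least value of `g + min m (n - 1)` over all surfaces in the
4-ball bounded by the knot, of genus `g`, with `n` local minima and `m` local maxima. -/
theorem result (K : Knot) :
    IsLeast {r : ℕ | ∃ g n m : ℕ, BoundsSurfaceExt K.1 g n m ∧ r = g + min m (n - 1)}
      (ribbonGenus K.1) := by
  constructor
  · obtain ⟨n, hn⟩ := boundsSurface_iff_ext.1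
      (boundsSurface_of_ribbon K.2 (boundsRibbon_ribbonGenus K))
    exact ⟨ribbonGenus K.1, n, 0, hn, by simp⟩
  · rintro r ⟨g, n, m, h, rfl⟩
    rcases le_total m (n - 1) with h1 | h1
    · rw [min_eq_left h1]
      exact Nat.sInf_le (ribbon_of_maxima h)
    · rw [min_eq_right h1]
      exact Nat.sInf_le (ribbon_of_minima K.2 h)

end Pool.Agent.Lib.MP_177a0e_gt.Weaker.GenusPlusExtrema
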