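import Pool.Agent.Lib.MP_177a0e_gt.Surf

namespace Pool.Agent.Lib.MP_177a0e_gt.Weaker.GenusPlusMaxima

open Pool.Agent.Lib.MP_177a0e_gt

/-- The ribbon genus of a knot is the least value of the genus plus the number of local maxima,
over all surfaces in the 4-ball bounded by the knot. -/
theorem result (K : Knot) :
    IsLeast {r : ℕ | ∃ g m : ℕ, BoundsSurface K.1 g m ∧ r = g + m} (ribbonGenus K.1) := by
  constructor
  · exact ⟨ribbonGenus K.1, 0, Nat.sInf_mem (exists_ribbon K), rfl⟩
  · rintro r ⟨g, m, h, rfl⟩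
    exact Nat.sInf_le (trade K g m h)

end Pool.Agent.Lib.MP_177a0e_gt.Weaker.GenusPlusMaxima
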