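import Pool.Agent.Lib.MP_177a0e_gt.Stable

namespace Pool.Agent.Lib.MP_177a0e_gt.Weaker.MirrorPairStability

open Pool.Agent.Lib.MP_177a0e_gt.Tangle

/-- One sequence of mirror pairs `A n # -A n` turns the ribbon genus of every knot into its slice genus,
and the slice genus is the greatest function `f` on knots with `f ≤` the ribbon genus and
`f K ≤ f (K # J # -J)`. -/
theorem result :
    (∃ A : ℕ → Knot, (∀ n, ∃ J : Knot, A (n + 1) = (A n).csum J) ∧ ∀ K : Knot,
      (∀ n, ribbonGenus (K.csum ((A (n + 1)).csum (A (n + 1)).mirror)).1 ≤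
        ribbonGenus (K.csum ((A n).csum (A n).mirror)).1) ∧
      ∃ N : ℕ, ∀ n, N ≤ n → ribbonGenus (K.csum ((A n).csum (A n).mirror)).1 = sliceGenus K.1) ∧
    IsGreatest {f : Knot → ℝ | (∀ K : Knot, f K ≤ ribbonGenus K.1) ∧
      ∀ K J : Knot, f K ≤ f (K.csum (J.csum J.mirror))} (fun K => (sliceGenus K.1 : ℝ)) := by
  refine ⟨?_, isGreatest_sliceGenus⟩
  obtain ⟨A, hA, h⟩ := exists_universal
  refine ⟨A, hA, fun K => ⟨fun n => ?_, h K⟩⟩
  obtain ⟨J, hJ⟩ := hA n
  rw [hJ]
  exact ribbonGenus_enlarge K (A n) J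

/-- Quantitative form for one knot: if `K` bounds a surface of genus `g` with `n` minima and `m` maxima,
there is a ribbon knot `R` of fusion number at most `m + b`, `b + 1` the bridge number of `K`, such that
`K # R` bounds a ribbon surface of genus `g` with `n + b` minima; conversely, if `R` is a ribbon knot of
fusion number `f` and `K # R` bounds a ribbon surface of genus `g` with `n` minima then `K` bounds a
surface of genus `g` with `n` minima and `f` maxima. -/
theorem maxima_fusion (K : Knot) (g n : ℕ) :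
    (∀ m : ℕ, BoundsSurfaceExt K.1 g n m → ∃ R : Knot, ribbonGenus R.1 = 0 ∧
      fusion R.1 ≤ m + (bridge K.1 - 1) ∧
      BoundsSurfaceExt (K.csum R).1 g (n + (bridge K.1 - 1)) 0) ∧
    ∀ R : Knot, ribbonGenus R.1 = 0 → BoundsSurfaceExt (K.csum R).1 g n 0 →
      BoundsSurfaceExt K.1 g n (fusion R.1) := by
  refine ⟨fun m h => ?_, fun R hR h => of_stabiliser_ext hR h⟩
  obtain ⟨R, h1, h2, h3⟩ := stabiliser h
  exact ⟨R, h1, by omega, h3⟩

end Pool.Agent.Lib.MP_177a0e_gt.Weaker.MirrorPairStability
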