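import Pool.Agent.Lib.MP_177a0e_gt.TangleRev

namespace Pool.Agent.Lib.MP_177a0e_gt.Weaker.ReversalInequality

open Pool.Agent.Lib.MP_177a0e_gt.Tangle

/-- If the knot `A` bounds a surface of genus `g` with `n` local minima (and any number `m` of local
maxima) then the ribbon genus of a knot `K` is at most the ribbon genus of `K # -A` plus
`g + (n - 1)`. -/
theorem result (K A : Knot) (g n m : ℕ) (hA : BoundsSurfaceExt A.1 g n m) :
    ribbonGenus K.1 ≤ ribbonGenus (csum K.1 (adj A.1)) + g + (n - 1) := by
  obtain ⟨A', _, h1, d, hd, h2⟩ := hA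
  have h3 : BoundsRibbon (K.1 ++ adj A.1) (ribbonGenus (csum K.1 (adj A.1))) :=
    boundsRibbon_ribbonGenus (K.csum A.mirror)
  have h4 := reversal K.2 h1 h2 h3
  exact (Nat.sInf_le h4).trans (by omega)

/-- Corollary: the ribbon genus and the slice genus of `K` are equal as soon as `K # -A` is ribbon
for some knot `A` whose slice genus is attained by a surface with exactly one local minimum. -/
theorem ribbonGenus_eq_sliceGenus (K A : Knot)
    (h : ribbonGenus (csum K.1 (adj A.1)) = 0)
    (hA : ∃ m : ℕ, BoundsSurfaceExt A.1 (sliceGenus A.1) 1 m) :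
    ribbonGenus K.1 = sliceGenus K.1 := by
  obtain ⟨m, hA⟩ := hA
  refine le_antisymm ?_ (sliceGenus_le_ribbonGenus K)
  have h0 : sliceGenus A.1 ≤ sliceGenus K.1 := by
    apply sliceGenus_le_of_mirror A K
    have e : csum A.1 (adj K.1) = adj (csum K.1 (adj A.1)) := by
      unfold csum
      rw [adj_append, adj_adj]
    rw [e, ribbonGenus_adj, h]
  have h1 := result K A _ _ _ hA
  omega

end Pool.Agent.Lib.MP_177a0e_gt.Weaker.ReversalInequality
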