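import Pool.Agent.Lib.MP_177a0e_gt.TangleRev

namespace Pool.Agent.Lib.MP_177a0e_gt.Weaker.RibbonPseudometric

open Pool.Agent.Lib.MP_177a0e_gt.Tangle

/-- The ribbon genus equals the slice genus for all knots if and only if the triangle inequality
holds for the ribbon genus of `K # -L`, if and only if the connected sum with a knot of the form
`J # -J`, or with a ribbon knot, never lowers the ribbon genus, if and only if the ribbon genus is
invariant under (ribbon) concordance. -/
theorem result : List.TFAE [
    ∀ K : Knot, ribbonGenus K.1 = sliceGenus K.1,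
    ∀ K J L : Knot, ribbonGenus (csum K.1 (adj L.1)) ≤
      ribbonGenus (csum K.1 (adj J.1)) + ribbonGenus (csum J.1 (adj L.1)),
    ∀ K J : Knot, ribbonGenus K.1 ≤ ribbonGenus (csum K.1 (csum J.1 (adj J.1))),
    ∀ K J : Knot, ribbonGenus J.1 = 0 → ribbonGenus (csum K.1 J.1) = ribbonGenus K.1,
    ∀ K K' : Knot, RibbonConcordance K'.1 K.1 → ribbonGenus K.1 ≤ ribbonGenus K'.1,
    ∀ K K' : Knot, Concordant K K' → ribbonGenus K.1 = ribbonGenus K'.1] := by
  tfae_have 1 → 5 := by
    intro h K K' hK'
    rw [h K]; exact sliceGenus_le_of_concordance hK'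
  tfae_have 5 → 6 := by
    intro h K K' hKK'
    induction hKK' with
    | rel K K' hr => exact le_antisymm (ribbonGenus_le_of_concordance hr) (h K' K hr)
    | refl _ => rfl
    | symm _ _ _ ih => exact ih.symm
    | trans _ _ _ _ _ ih1 ih2 => exact ih1.trans ih2
  tfae_have 6 → 4 := by
    intro h K J hJ
    exact h (K.csum J) K (Relation.EqvGen.rel _ _ (csum_concordance K J hJ))
  tfae_have 4 → 3 := by
    intro h K J
    exact (h K (J.csum J.mirror) (ribbonGenus_mirror J)).ge
  tfae_have 3 → 1 := by
    intro h K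
    obtain ⟨J, hJ⟩ := exists_mirrorPair K
    apply le_antisymm _ (sliceGenus_le_ribbonGenus K)
    rw [hJ]
    exact h K J
  tfae_have 5 → 2 := by
    intro h K J L
    have h1 : RibbonConcordance ((K.csum J.mirror).csum (J.csum L.mirror)).1
        (K.csum L.mirror).1 := by
      refine ⟨caps J.1, ?_⟩
      have e1 := (cob_adj'' J.2.valid).symm.ctx K.2.valid L.2.adj.valid
      simp only [List.append_nil] at e1
      have e2 : ((K.csum J.mirror).csum (J.csum L.mirror)).1 =
          K.1 ++ (adj J.1 ++ J.1) ++ adj L.1 := by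
        simp [Knot.csum, Knot.mirror, List.append_assoc]
      rw [e2]
      exact e1
    have h2 := h _ _ h1
    have h3 := ribbonGenus_csum_le (K.csum J.mirror) (J.csum L.mirror)
    exact h2.trans h3
  tfae_have 2 → 1 := by
    intro h K
    obtain ⟨m, K', hK', h1, h2⟩ := exists_sliceGenus K
    apply le_antisymm _ (sliceGenus_le_ribbonGenus K)
    have h3 := h K ⟨K', hK'⟩ ⟨[], Relation.EqvGen.refl _⟩
    have h4 : ribbonGenus (csum K.1 (adj K')) = 0 := by
      have h5 : ribbonGenus (csum K.1 (adj K')) ≤ 0 :=
        Nat.sInf_le (boundsRibbon_mirror_top K.2 h1)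
      omega
    have h6 : ribbonGenus K' ≤ sliceGenus K.1 := Nat.sInf_le h2
    have e3 : csum K.1 (adj []) = K.1 := by simp [csum, adj_nil]
    have e4 : csum K' (adj []) = K' := by simp [csum, adj_nil]
    simp only [e3, e4, h4] at h3
    omega
  tfae_finish

end Pool.Agent.Lib.MP_177a0e_gt.Weaker.RibbonPseudometric
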