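import Pool.Agent.Lib.MP_177a0e_gt.TangleMain

namespace Pool.Agent.Lib.MP_177a0e_gt.Weaker.RibbonSumCancellation

open Pool.Agent.Lib.MP_177a0e_gt.Tangle

/-- The ribbon genus equals the slice genus for all knots if and only if the connected sum with a
ribbon knot never lowers the ribbon genus, if and only if the ribbon genus is invariant under
(ribbon) concordance. -/
theorem result : List.TFAE [
    ∀ K : Knot, ribbonGenus K.1 = sliceGenus K.1,
    ∀ K J : Knot, ribbonGenus J.1 = 0 → ribbonGenus K.1 ≤ ribbonGenus (csum K.1 J.1),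
    ∀ K J : Knot, ribbonGenus J.1 = 0 → ribbonGenus (csum K.1 J.1) = ribbonGenus K.1,
    ∀ K K' : Knot, RibbonConcordance K'.1 K.1 → ribbonGenus K.1 ≤ ribbonGenus K'.1,
    ∀ K K' : Knot, Concordant K K' → ribbonGenus K.1 = ribbonGenus K'.1] := by
  tfae_have 1 → 4 := by
    intro h K K' hK'
    rw [h K]; exact sliceGenus_le_of_concordance hK'
  tfae_have 4 → 5 := by
    intro h K K' hKK'
    induction hKK' with
    | rel K K' hr => exact le_antisymm (ribbonGenus_le_of_concordance hr) (h K' K hr)
    | refl _ => rfl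
    | symm _ _ _ ih => exact ih.symm
    | trans _ _ _ _ _ ih1 ih2 => exact ih1.trans ih2
  tfae_have 5 → 3 := by
    intro h K J hJ
    exact h (K.csum J) K (Relation.EqvGen.rel _ _ (csum_concordance K J hJ))
  tfae_have 3 → 2 := by
    intro h K J hJ
    exact (h K J hJ).ge
  tfae_have 2 → 1 := by
    intro h K
    obtain ⟨J, hJ, h1⟩ := exists_stable K
    apply le_antisymm _ (sliceGenus_le_ribbonGenus K)
    rw [h1]; exact h K J hJ
  tfae_finish

end Pool.Agent.Lib.MP_177a0e_gt.Weaker.RibbonSumCancellation
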