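import Pool.Agent.Lib.MP_177a0e_gt.Surf

namespace Pool.Agent.Lib.MP_177a0e_gt.Weaker.SliceGenusMin

open Pool.Agent.Lib.MP_177a0e_gt

/-- The slice genus of a knot `K` is the least ribbon genus of a knot `K'` from which there is a
ribbon concordance to `K`. -/
theorem result (K : Knot) :
    IsLeast {r : ℕ | ∃ K' : Knot, RibbonConcordance K'.1 K.1 ∧ r = ribbonGenus K'.1}
      (sliceGenus K.1) := by
  have hne : {g | ∃ m, BoundsSurface K.1 g m}.Nonempty := by
    obtain ⟨g, hg⟩ := exists_ribbon K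
    exact ⟨g, 0, hg⟩
  have hlow : ∀ K' : Knot, RibbonConcordance K'.1 K.1 → sliceGenus K.1 ≤ ribbonGenus K'.1 := by
    intro K' hK'
    have h1 : BoundsSurface K'.1 (ribbonGenus K'.1) 0 := Nat.sInf_mem (exists_ribbon K')
    exact Nat.sInf_le ((boundsSurface_iff K _).mpr ⟨K', hK', h1⟩)
  constructor
  · have h1 : ∃ m, BoundsSurface K.1 (sliceGenus K.1) m := Nat.sInf_mem hne
    obtain ⟨K', hK', h2⟩ := (boundsSurface_iff K _).mp h1
    exact ⟨K', hK', le_antisymm (hlow K' hK') (Nat.sInf_le h2)⟩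
  · rintro r ⟨K', hK', rfl⟩
    exact hlow K' hK'

end Pool.Agent.Lib.MP_177a0e_gt.Weaker.SliceGenusMin
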