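import Pool.Agent.Lib.MP_177a0e_gt.TangleMain

namespace Pool.Agent.Lib.MP_177a0e_gt.Weaker.StableRibbonGenus

open Pool.Agent.Lib.MP_177a0e_gt.Tangle

/-- The slice genus of a knot `K` is the least ribbon genus of the connected sums of `K` with
ribbon knots. -/
theorem result (K : Knot) :
    IsLeast {r : ℕ | ∃ J : Knot, ribbonGenus J.1 = 0 ∧ r = ribbonGenus (csum K.1 J.1)}
      (sliceGenus K.1) := by
  constructor
  · exact exists_stable K
  · rintro r ⟨J, hJ, rfl⟩
    exact sliceGenus_le_of_concordance (K := K) (K' := K.csum J) (csum_concordance K J hJ)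

end Pool.Agent.Lib.MP_177a0e_gt.Weaker.StableRibbonGenus
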