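import Pool.Agent.Lib.MP_177a0e_gt.Sig.FinB

/-!
# Ribbon genus and slice genus near the sums of positive two-bridge knots

`oneMinGenus A` is the least genus of a surface in the 4-ball with boundary `A` on which the radial
function has exactly one local minimum; it lies between the slice genus and the unknotting number of
`A`. Such a surface, turned upside down, changes every knot `K` by saddles alone into `K # -A'`, where
there is a ribbon concordance from `A'` to `A`. For the sums of positive two-bridge knots the slice
genus is the one-minimum genus by the signature bound, which is proved in the tangle model (the files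
`Sig/*`): so nothing has to be assumed about them.
-/

namespace Pool.Agent.Lib.MP_177a0e_gt.Weaker.TwoBridgeClasses

open Pool.Agent.Lib.MP_177a0e_gt.Tangle Pool.Agent.Lib.MP_177a0e_gt.Sig

/-- For all knots `K` and `A` the ribbon genus of `K` is at most that of `K # -A` plus the one-minimum
genus `h` of `A`, and `2 h` saddles turn `K` into a slice knot if `K` is concordant to `A`.
If the slice genus of `A` is equal to its unknotting number, or only to its one-minimum genus, then

* the ribbon genus and the slice genus of `K` are equal if `K # -A` is a ribbon knot;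
* `2 g` saddles, where `g` is the slice genus of `K`, turn `K` into a slice knot if `K` is concordant
  to `A`.

Every connected sum `A` of positive two-bridge knots has this property: its slice genus and its
one-minimum genus are equal to the sum `g` of the genera of the summands. So

* the ribbon genus and the slice genus of `K` are both `g` if `K # -A` is a ribbon knot;
* the slice genus of `K` is `g` and `2 g` saddles turn `K` into a slice knot if `K` is concordant to
  `A`. -/
theorem result (K A : Knot) :
    (ribbonGenus K.1 ≤ ribbonGenus (csum K.1 (adj A.1)) + oneMinGenus A.1 ∧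
      (Concordant K A → ∃ J : Knot, sliceGenus J.1 = 0 ∧
        Cob [true] [true] 0 (2 * oneMinGenus A.1) 0 K.1 J.1) ∧
      (unknotting A.1 = sliceGenus A.1 ∨ oneMinGenus A.1 = sliceGenus A.1 →
        (ribbonGenus (csum K.1 (adj A.1)) = 0 → ribbonGenus K.1 = sliceGenus K.1) ∧
        (Concordant K A → ∃ J : Knot, sliceGenus J.1 = 0 ∧
          Cob [true] [true] 0 (2 * sliceGenus K.1) 0 K.1 J.1))) ∧
    ∀ m : List (List Bool), TbOdd m → A.1 = tbSum m →
      (ribbonGenus (csum K.1 (adj A.1)) = 0 → ribbonGenus K.1 = tbGenus m ∧ sliceGenus K.1 = tbGenus m) ∧
      (Concordant K A → sliceGenus K.1 = tbGenus m ∧ ∃ J : Knot, sliceGenus J.1 = 0 ∧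
        Cob [true] [true] 0 (2 * tbGenus m) 0 K.1 J.1) := by
  have h1 := ribbonGenus_le_oneMin K A
  have h5 := sliceGenus_le_ribbonGenus K
  have main : oneMinGenus A.1 = sliceGenus A.1 →
      (ribbonGenus (csum K.1 (adj A.1)) = 0 → ribbonGenus K.1 = sliceGenus K.1) ∧
        (Concordant K A → ∃ J : Knot, sliceGenus J.1 = 0 ∧
          Cob [true] [true] 0 (2 * sliceGenus K.1) 0 K.1 J.1) := by
    intro hA'
    constructor
    · intro h
      have h4 := (concordant_of_mirror h).sliceGenus_eq
      omega
    · intro h
      rw [h.sliceGenus_eq, ← hA']
      exact saddles_first h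
  refine ⟨⟨h1, saddles_first, fun hA => main ?_⟩, fun m hm hAm => ?_⟩
  · have h2 := sliceGenus_le_oneMinGenus A
    have h3 := oneMinGenus_le_unknotting A
    omega
  · obtain ⟨e1, e2⟩ := tbs_genus m hm
    rw [← hAm] at e1 e2
    obtain ⟨m1, m2⟩ := main (e2.trans e1.symm)
    constructor
    · intro h
      have h4 := (concordant_of_mirror h).sliceGenus_eq
      have h6 := m1 h
      omega
    · intro h
      have h4 := h.sliceGenus_eq
      obtain ⟨J, hJ, hc⟩ := m2 h
      refine ⟨h4.trans e1, J, hJ, ?_⟩
      have e3 : sliceGenus K.1 = tbGenus m := h4.trans e1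
      rw [e3] at hc
      exact hc

end Pool.Agent.Lib.MP_177a0e_gt.Weaker.TwoBridgeClasses
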