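import Pool.Agent.Lib.MP_177a0e_gt.OneMin

/-!
# Ribbon genus and slice genus near the knots whose unknotting number is the slice genus

`oneMinGenus A` is the least genus of a surface in the 4-ball with boundary `A` on which the radial
function has exactly one local minimum; it lies between the slice genus and the unknotting number of
`A`. Such a surface, turned upside down, changes every knot `K` by saddles alone into `K # -A'`, where
there is a ribbon concordance from `A'` to `A`.
-/

namespace Pool.Agent.Lib.MP_177a0e_gt.Weaker.UnknottingClasses

open Pool.Agent.Lib.MP_177a0e_gt.Tangle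

/-- For all knots `K` and `A` the ribbon genus of `K` is at most that of `K # -A` plus the one-minimum
genus `h` of `A`, and `2 h` saddles turn `K` into a slice knot if `K` is concordant to `A`.
If the slice genus of `A` is equal to its unknotting number, or only to its one-minimum genus, then

* the ribbon genus and the slice genus of `K` are equal if `K # -A` is a ribbon knot;
* `2 g` saddles, where `g` is the slice genus of `K`, turn `K` into a slice knot if `K` is concordant
  to `A`. -/
theorem result (K A : Knot) :
    ribbonGenus K.1 ≤ ribbonGenus (csum K.1 (adj A.1)) + oneMinGenus A.1 ∧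
    (Concordant K A → ∃ J : Knot, sliceGenus J.1 = 0 ∧
      Cob [true] [true] 0 (2 * oneMinGenus A.1) 0 K.1 J.1) ∧
    (unknotting A.1 = sliceGenus A.1 ∨ oneMinGenus A.1 = sliceGenus A.1 →
      (ribbonGenus (csum K.1 (adj A.1)) = 0 → ribbonGenus K.1 = sliceGenus K.1) ∧
      (Concordant K A → ∃ J : Knot, sliceGenus J.1 = 0 ∧
        Cob [true] [true] 0 (2 * sliceGenus K.1) 0 K.1 J.1)) := by
  have h1 := ribbonGenus_le_oneMin K A
  refine ⟨h1, saddles_first, fun hA => ?_⟩
  have hA' : oneMinGenus A.1 = sliceGenus A.1 := by
    have h2 := sliceGenus_le_oneMinGenus A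
    have h3 := oneMinGenus_le_unknotting A
    omega
  constructor
  · intro h
    have h4 := (concordant_of_mirror h).sliceGenus_eq
    have h5 := sliceGenus_le_ribbonGenus K
    omega
  · intro h
    rw [h.sliceGenus_eq, ← hA']
    exact saddles_first h

/-- The slice-ribbon conjecture implies that the ribbon genus and the slice genus are equal for all
knots which are concordant to a knot whose unknotting number is its slice genus. -/
theorem of_slice_ribbon (hSR : ∀ J : Knot, sliceGenus J.1 = 0 → ribbonGenus J.1 = 0) (K A : Knot)
    (hA : unknotting A.1 = sliceGenus A.1 ∨ oneMinGenus A.1 = sliceGenus A.1)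
    (h : Concordant K A) : ribbonGenus K.1 = sliceGenus K.1 :=
  ((result K A).2.2 hA).1 (hSR (K.csum A.mirror) h.sliceGenus_csum)

end Pool.Agent.Lib.MP_177a0e_gt.Weaker.UnknottingClasses
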